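import Pool.Agent.N659.HB.Stm6

/-!
Project LD (helper659): gap for laws close to a law with contracting effective phase (helper278).
-/

set_option autoImplicit false

namespace Pool.Agent.N278.LD

open MeasureTheory Filter Pool.Agent.W792.LL Pool.Agent.W792.WA Pool.Agent.N659.HB
open scoped Topology

theorem main : S_GAIN → S_PSIX → S_FIX → S_UUC → S_CX → S_GAPL := by
  intro hG hP hF hU hC X q hq0 hq1 hψ ρ _ C D hρ hatoms
  have hσ : 0 < (1 - q) / 2 := by linarith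
  obtain ⟨γ, hγ0, hγ1, hg⟩ := hG ρ C D ((1 - q) / 2) hρ hatoms hσ
  set q1 : ℝ := Real.sqrt (1 - γ) with hq1def
  have hq10 : 0 ≤ q1 := Real.sqrt_nonneg _
  have hq11 : q1 < 1 := by
    rw [hq1def, Real.sqrt_lt' one_pos]
    linarith
  have h1q1 : 0 < 1 - q1 := by linarith
  refine ⟨(1 - q) / 2 * ((1 - q1) ^ 3 / 8), by positivity, ?_⟩
  intro X' hcd hvr d K z hKz hz s hs
  obtain ⟨_, _, h3, h4⟩ := hC
  obtain ⟨q', hq'0, hq'1, hq'⟩ := h3 C D z.im hz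
  have hcont := h4 d K z hz.le
  have hnorm : ∀ k, ‖((K k : ℝ) : ℂ) - z‖ ≤ D := by
    intro k
    have h5 : ‖K k‖ ≤ ‖K‖ := K.norm_coe_le_norm k
    have h6 := norm_sub_le ((K k : ℝ) : ℂ) z
    rw [Complex.norm_real] at h6
    linarith
  have him : ∀ k, (((K k : ℝ) : ℂ) - z).im = -z.im := by
    intro k
    simp
  have hw : ∀ k, ∀ a ∈ Set.Icc (-C) C, ‖wz K z k a‖ ≤ q' := by
    intro k a ha
    exact hq' _ a (hnorm k) (him k).le (abs_le.2 ha)
  have hinv : ∀ s ∈ {s : C(UnitAddTorus (Fin d), ℂ) | ‖s‖ ≤ 1 - (1 - q) / 2},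
      psi (qlaw X') (UU ρ (wz K z) s) ∈
        {s : C(UnitAddTorus (Fin d), ℂ) | ‖s‖ ≤ 1 - (1 - q) / 2} := by
    intro s hs
    have hs1 : ‖s‖ ≤ 1 - (1 - q) / 2 := hs
    have hs2 : ‖s‖ ≤ 1 := by linarith
    have hs3 : q' * ‖s‖ < 1 := by
      have := mul_le_mul_of_nonneg_left hs2 hq'0
      linarith
    have hUU := hU d ρ C q' (wz K z) s hρ hcont hq'0 hq'1.le hw hs2 hs3
    have hUq : ‖UU ρ (wz K z) s‖ ≤ q1 := by
      rw [ContinuousMap.norm_le _ hq10]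
      intro k
      rw [hUU.1 k]
      have h7 := (hg (((K k : ℝ) : ℂ) - z) 0 (s k) (hnorm k) (by rw [him k]; linarith)
        (by simp) ((s.norm_coe_le_norm k).trans hs1)).2
      exact Real.le_sqrt_of_sq_le h7
    have h8 := hψ d (UU ρ (wz K z) s) (lt_of_le_of_lt hUq hq11)
    have h9 := hP q1 ((1 - q) / 2 * ((1 - q1) ^ 3 / 8)) X X' hq10 hq11 (by positivity) hcd d
      (UU ρ (wz K z) s) hUq
    have h10 : 8 / (1 - q1) ^ 3 * ((1 - q) / 2 * ((1 - q1) ^ 3 / 8)) = (1 - q) / 2 := by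
      field_simp
    rw [h10] at h9
    show ‖psi (qlaw X') (UU ρ (wz K z) s)‖ ≤ 1 - (1 - q) / 2
    have h11 : ‖psi (qlaw X') (UU ρ (wz K z) s)‖ ≤ ‖psi (qlaw X) (UU ρ (wz K z) s)‖ +
        ‖psi (qlaw X) (UU ρ (wz K z) s) - psi (qlaw X') (UU ρ (wz K z) s)‖ := by
      have := norm_sub_le (psi (qlaw X) (UU ρ (wz K z) s))
        (psi (qlaw X) (UU ρ (wz K z) s) - psi (qlaw X') (UU ρ (wz K z) s))
      rwa [sub_sub_cancel] at this
    linarith
  refine (hF (qlaw X') d ρ C q' (wz K z) hvr hρ hcont hq'0 hq'1 hw).2.2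
    {s | ‖s‖ ≤ 1 - (1 - q) / 2} (isClosed_le continuous_norm continuous_const) ⟨0, ?_⟩ ?_
      hinv s hs
  · show ‖(0 : C(UnitAddTorus (Fin d), ℂ))‖ ≤ 1 - (1 - q) / 2
    rw [norm_zero]
    linarith
  · intro s hs
    have hs1 : ‖s‖ ≤ 1 - (1 - q) / 2 := hs
    linarith

end Pool.Agent.N278.LD
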